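import Mathlib

set_option autoImplicit false

/-! Symmetric association schemes, triple regularity, spin models. -/

namespace Pool.Agent.X227.SM

/-- A symmetric association scheme with `d` classes on the finite set `X`: `r x y` is the index of
the relation holding between `x` and `y`. -/
structure Scheme (X : Type) [Fintype X] (d : ℕ) where
  r : X → X → Fin (d + 1)
  nonempty : Nonempty X
  surj : ∀ i, ∃ x y, r x y = i
  diag : ∀ x y, r x y = 0 ↔ x = y
  symm : ∀ x y, r x y = r y x
  p : Fin (d + 1) → Fin (d + 1) → Fin (d + 1) → ℕ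
  card_p : ∀ i j x y, Nat.card {z : X // r x z = i ∧ r z y = j} = p i j (r x y)

variable {X : Type} [Fintype X] {d : ℕ}

/-- The adjacency matrices. -/
noncomputable def Scheme.A (S : Scheme X d) (i : Fin (d + 1)) : Matrix X X ℂ :=
  open Classical in Matrix.of fun x y => if S.r x y = i then 1 else 0

/-- The Bose–Mesner algebra (as a vector space of matrices). -/
noncomputable def Scheme.BM (S : Scheme X d) : Submodule ℂ (Matrix X X ℂ) :=
  Submodule.span ℂ (Set.range S.A)

/-- A spin model on `X`: a symmetric matrix with nonzero entries satisfying the type II and the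
type III condition. -/
def IsSpinModel (W : Matrix X X ℂ) : Prop :=
  (∀ a b, W a b = W b a) ∧ (∀ a b, W a b ≠ 0) ∧
  (∀ a, ∑ x, W a x / W a x = (Fintype.card X : ℂ)) ∧
  (∀ a b, a ≠ b → ∑ x, W a x / W b x = 0) ∧
  ∃ D : ℂ, D ^ 2 = (Fintype.card X : ℂ) ∧
    ∀ a b c, ∑ x, W a x * W b x / W c x = D * (W a b / (W a c * W b c))

end Pool.Agent.X227.SM
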